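import Mathlib
import Pool.Agent.KS6_10.NS.Stmt

/-!
# The Neumann series on Fréchet spaces: quojections and spaces of rapidly decreasing sequences

`Lim B` is the projective limit of a sequence `B` of Banach spaces `X n` with linking maps
`r n : X (n + 1) → X n`; it is a Fréchet space.

* A quojection is a projective limit of Banach spaces with surjective linking maps (for example a
  Banach space, a countable product of Banach spaces, the space of continuous functions on the
  line, a space of locally integrable functions). On a complex quojection the answer to the
  question is yes, with the same disc: if `I - c U` is bijective for all `|c| < δ`, then the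
  Neumann series converges for all `|c| < δ`.

  Proof. By the open mapping theorem the resolvents `R c = (1 - c U)⁻¹` are continuous. Fix `n`.
  The set `A N` of the `c` in the disc `D` for which `R c` maps the kernel of the projection `π N`
  to `X N` into the kernel of `π n` increases with `N`, and the union of these sets is `D`. In a
  quojection the norms `‖π n (R c x)‖ ≤ M ‖π N x‖` are bounded for `c ∈ A N` near each point of `D`
  (resolvent equation), hence `A N` is closed in `D`, and `c ↦ π n (R c x)` is continuous on `A N`
  and holomorphic in its interior. Let `Z` be the set of the points of `D` which are interior
  points of no `A N`. If it is not empty, then by the Baire category theorem there are `N` and a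
  disc `D'` centred on `Z` with `Z ∩ D' ⊆ A N`. If a component `W` of `D' \ Z` does not lie in
  `A N`, there is `x` in the kernel of `π N` such that `π n (R c x)` is not zero on `W`; this
  function vanishes on the boundary of `W` in `D'`, and the maximum principle for its quotients
  by powers of `c - a` shows that there is no `a ∈ D'` outside the closure of `W`. So
  `W = D' \ Z`, which is contained in some `A N'`, and `D' ⊆ A (max N N')`, a contradiction. So
  `c ↦ π n (R c x)` is holomorphic in `D`; its Taylor coefficients are the `π n (U ^ k x)`.

* The spaces `Lim (weightSeq 𝕜 hw)` of the functions `x : ℤ → 𝕜` with `w ^ k x` bounded for all `k` are Fréchet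
  spaces; for `w n = 1 + |n|` this is the space `s` of rapidly decreasing sequences, for
  `w n = exp |n|` the space of Laurent series which converge in the punctured plane. On each of
  them the weighted shift `(U x) n = w n x (n + 1)` has bijective `I - c U` for all scalars `c`, and
  the Neumann series diverges for all `c ≠ 0` and all `x ≠ 0`.

* For real scalars the first part fails on the product of countably many planes.
-/

set_option autoImplicit false

namespace Pool.Agent.Results.MP_18d2fb_an.Quojections

open Pool.Agent.KS6_10.NS

/-- (1) On complex quojections the Neumann series converges in the whole disc in which `I - c U` is
bijective. (2) On the spaces of rapidly decreasing sequences (with any weight) there is an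
operator for which `I - c U` is always bijective and the Neumann series always diverges.
(3) For real scalars (1) fails on the product of countably many planes. -/
theorem result :
    NeumannOnQuojections ∧
    (∀ (𝕜 : Type) [RCLike 𝕜] (w : ℤ → ℝ) (hw : IsWeight w), TotalDivergence 𝕜 hw) ∧
    (IsWeight (fun n : ℤ => 1 + |(n : ℝ)|) ∧ IsWeight fun n : ℤ => Real.exp |(n : ℝ)|) ∧
    RealProductFails :=
  ⟨neumannOnQuojections, fun _ _ _ hw => totalDivergence hw,
    ⟨isWeight_linear, isWeight_exp⟩, realProductFails⟩

end Pool.Agent.Results.MP_18d2fb_an.Quojections
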